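import Mathlib

set_option autoImplicit false

open Polynomial

namespace Pool.Agent.Results.MP_106bf9_an.Counterexample

def zeros (P : ℂ[X]) (R : Finset ℕ) : Set ℂ :=
  {z | P.IsRoot z ∨ ∃ r ∈ R, (derivative^[r] P).IsRoot z}

theorem result :
    ¬ ∀ (n : ℕ) (R : Finset ℕ) (P : ℂ[X]), 2 ≤ n → R.Nonempty → (∀ r ∈ R, 1 ≤ r ∧ r ≤ n - 1) →
      P.natDegree = n → (∃ a b : ℂ, a ≠ b ∧ P.IsRoot a ∧ P.IsRoot b) →
      R.card + 2 ≤ (zeros P R).ncard := by
  intro h
  have hd : ((X ^ 2 - 1) ^ 2 : ℂ[X]).natDegree = 4 := by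
    rw [natDegree_pow, show (X ^ 2 - 1 : ℂ[X]) = X ^ 2 - C 1 by simp, natDegree_X_pow_sub_C]
  have h1 := h 4 {1, 3} ((X ^ 2 - 1) ^ 2) (by norm_num) (by simp) (by simp) hd
    ⟨1, -1, by norm_num, by simp, by simp⟩
  have e : ((X ^ 2 - 1) ^ 2 : ℂ[X]) = X ^ 4 - C 2 * X ^ 2 + 1 := by
    rw [show (C 2 : ℂ[X]) = 2 from rfl]; ring
  have hsub : zeros ((X ^ 2 - 1) ^ 2) {1, 3} ⊆ ({1, -1, 0} : Set ℂ) := by
    intro z hz
    rcases hz with hz | ⟨r, hr, hz⟩
    · simp only [IsRoot.def, eval_pow, eval_sub, eval_X, eval_one] at hz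
      have h2 : (z - 1) * (z + 1) = 0 := by
        have := pow_eq_zero_iff (two_ne_zero) |>.1 hz
        linear_combination this
      rcases mul_eq_zero.1 h2 with h3 | h3
      · left; linear_combination h3
      · right; left; linear_combination h3
    · simp only [Finset.mem_insert, Finset.mem_singleton] at hr
      rcases hr with rfl | rfl
      · rw [e] at hz
        simp [derivative_X_pow] at hz
        have h2 : (z - 1) * ((z + 1) * z) = 0 := by
          linear_combination hz / 4
        rcases mul_eq_zero.1 h2 with h3 | h3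
        · left; linear_combination h3
        · rcases mul_eq_zero.1 h3 with h4 | h4
          · right; left; linear_combination h4
          · right; right; exact h4
      · rw [e] at hz
        simp [Function.iterate_succ, derivative_X_pow] at hz
        right; right
        norm_num at hz
        exact hz
  have h3 : (zeros ((X ^ 2 - 1) ^ 2) {1, 3}).ncard ≤ 3 := by
    refine (Set.ncard_le_ncard hsub (Set.toFinite _)).trans ?_
    refine (Set.ncard_insert_le _ _).trans ?_
    have := Set.ncard_insert_le (-1 : ℂ) {0}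
    simp only [Set.ncard_singleton] at this
    omega
  have h4 : ({1, 3} : Finset ℕ).card = 2 := by decide
  omega

end Pool.Agent.Results.MP_106bf9_an.Counterexample
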